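import Mathlib

/-!
# Nearly unconditional bases of `ℓ¹` without a renorming with a small QGLC constant

For every `C` the space `ℓ¹`, real or complex, has a nearly unconditional basis which is not `C`-QGLC
(quasi-greedy for largest coefficients) with respect to any equivalent norm.  So there is no constant
`C = C(ℓ¹)` as asked for in Q1, and in particular the constants `1` and `1 + ε` of Q2 are impossible.

The basis: a tree in which every node `n` has the `b` children `b n, …, b n + b - 1`, and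
`x n = e n - ∑ τ m e m`, the sum over the children `m` of `n`, with `τ m = 1/2` except at the levels
that are squares, where `τ m = 0`.  If `r` is a node at a square level, then `e r` is the sum of the
`x n` at distance `i` below `r` with the coefficients `2^(-i)`, up to the next square level.  Removing
the levels one after the other, a `C`-QGLC norm of the sum of the `x n` at distance `i` below `r`, which
is of the order of magnitude `b^i`, is at most a constant times `(2 (1 + C))^i`.  This is impossible if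
`b > 2 (1 + C)`.
-/

set_option autoImplicit false

open Finset

namespace Pool.Agent.Results.MP_142f15_an.NoUniformRenorming

section Definitions

variable {𝕜 X : Type} [RCLike 𝕜] [NormedAddCommGroup X] [NormedSpace 𝕜 X]

/-- `x` is a basis of `X` with the biorthogonal functionals `xs`: both sequences are norm-bounded,
`xs m (x n)` is `1` for `m = n` and `0` otherwise, and the linear span of `x` is dense. -/
structure IsBasis (x : ℕ → X) (xs : ℕ → (X →L[𝕜] 𝕜)) : Prop where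
  bounded : ∃ B : ℝ, ∀ n, ‖x n‖ ≤ B
  dual_bounded : ∃ B : ℝ, ∀ n, ‖xs n‖ ≤ B
  biorthogonal : ∀ m n, xs m (x n) = if m = n then 1 else 0
  dense : Dense (Submodule.span 𝕜 (Set.range x) : Set X)

/-- The basis is nearly unconditional: for every `a` in `(0, 1]` there is a `C` such that
`‖S_A(f)‖ ≤ C ‖f‖` for all `f` with coefficients of modulus at most `1` and all finite sets `A` of
indices at which the coefficient of `f` has modulus at least `a`. -/
def IsNearlyUnconditional (x : ℕ → X) (xs : ℕ → (X →L[𝕜] 𝕜)) : Prop :=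
  ∀ a : ℝ, 0 < a → a ≤ 1 → ∃ C : ℝ, ∀ f : X, (∀ n, ‖xs n f‖ ≤ 1) →
    ∀ A : Finset ℕ, (∀ n ∈ A, a ≤ ‖xs n f‖) → ‖∑ n ∈ A, xs n f • x n‖ ≤ C * ‖f‖

/-- `N` is a norm on `X` which is equivalent to the given one. -/
structure IsEquivalentNorm (𝕜 : Type) [RCLike 𝕜] {X : Type} [NormedAddCommGroup X]
    [NormedSpace 𝕜 X] (N : X → ℝ) : Prop where
  add_le : ∀ f g : X, N (f + g) ≤ N f + N g
  smul : ∀ (c : 𝕜) (f : X), N (c • f) = ‖c‖ * N f
  equiv : ∃ α β : ℝ, 0 < α ∧ ∀ f : X, α * ‖f‖ ≤ N f ∧ N f ≤ β * ‖f‖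

/-- The basis is `L`-QGLC with respect to the norm `N`: for all finite sets `A`, all `ε n` of modulus
one and all `f` with coefficients of modulus at most one which vanish on `A`, the norm of
`∑ n ∈ A, ε n x n` is at most `L` times the norm of `∑ n ∈ A, ε n x n + f`. -/
def IsQGLC (N : X → ℝ) (L : ℝ) (x : ℕ → X) (xs : ℕ → (X →L[𝕜] 𝕜)) : Prop :=
  ∀ (A : Finset ℕ) (ε : ℕ → 𝕜), (∀ n ∈ A, ‖ε n‖ = 1) → ∀ f : X, (∀ n, ‖xs n f‖ ≤ 1) →
    (∀ n ∈ A, xs n f = 0) → N (∑ n ∈ A, ε n • x n) ≤ L * N (∑ n ∈ A, ε n • x n + f)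

end Definitions

/-- The Banach space `ℓ¹` over the field `𝕜`. -/
abbrev ell1 (𝕜 : Type) [RCLike 𝕜] : Type := lp (fun _ : ℕ => 𝕜) 1

noncomputable section

variable {𝕜 : Type} [RCLike 𝕜]

/-- weight of the edge from `n` to its parent `n / b` -/
def tau (𝕜 : Type) [RCLike 𝕜] (b n : ℕ) : 𝕜 := if IsSquare (Nat.log b n) then 0 else 1 / 2

lemma norm_half : ‖(1 / 2 : 𝕜)‖ = 1 / 2 := by simp

lemma tau_le (b n : ℕ) : ‖tau 𝕜 b n‖ ≤ 1 / 2 := by
  unfold tau
  split_ifs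
  · simp
  · rw [norm_half]

lemma tau_zero (b : ℕ) : tau 𝕜 b 0 = 0 := by
  unfold tau
  rw [if_pos]
  simp

def e (𝕜 : Type) [RCLike 𝕜] (n : ℕ) : ell1 𝕜 := lp.single 1 n 1

lemma e_apply (n m : ℕ) : (e 𝕜 n) m = if m = n then 1 else 0 := by
  unfold e
  rw [lp.single_apply, Pi.single_apply]

lemma norm_e (n : ℕ) : ‖e 𝕜 n‖ = 1 := by
  unfold e
  rw [lp.norm_single one_pos]; simp

/-- the basis -/
def x (𝕜 : Type) [RCLike 𝕜] (b n : ℕ) : ell1 𝕜 :=
  e 𝕜 n - ∑ i ∈ range b, tau 𝕜 b (b * n + i) • e 𝕜 (b * n + i)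

lemma x_apply {b : ℕ} (hb : 0 < b) (n m : ℕ) :
    (x 𝕜 b n) m = (if m = n then 1 else 0) - tau 𝕜 b m * (if m / b = n then 1 else 0) := by
  unfold x
  rw [lp.coeFn_sub, Pi.sub_apply, e_apply]
  congr 1
  rw [lp.coeFn_sum, Finset.sum_apply]
  have h : ∀ i ∈ range b, (tau 𝕜 b (b * n + i) • e 𝕜 (b * n + i)) m
      = if m = b * n + i then tau 𝕜 b m else 0 := by
    intro i _
    rw [lp.coeFn_smul, Pi.smul_apply, e_apply, smul_eq_mul]
    split_ifs with h
    · rw [h]; ring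
    · ring
  rw [Finset.sum_congr rfl h]
  have hdm := Nat.div_add_mod m b
  have hlt := Nat.mod_lt m hb
  by_cases hm : m / b = n
  · rw [if_pos hm, mul_one]
    rw [Finset.sum_eq_single (m % b)]
    · rw [if_pos]; rw [← hm]; exact hdm.symm
    · intro i hi hne
      rw [if_neg]
      intro h2
      rw [hm] at hdm
      omega
    · intro h; exfalso; apply h; rw [mem_range]; exact hlt
  · rw [if_neg hm, mul_zero]
    apply Finset.sum_eq_zero
    intro i hi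
    rw [mem_range] at hi
    rw [if_neg]
    intro h2
    apply hm
    rw [h2, Nat.mul_add_div hb, Nat.div_eq_of_lt hi, add_zero]

lemma norm_x (b n : ℕ) : ‖x 𝕜 b n‖ ≤ 1 + b := by
  unfold x
  refine (norm_sub_le _ _).trans ?_
  rw [norm_e]
  have h : ‖∑ i ∈ range b, tau 𝕜 b (b * n + i) • e 𝕜 (b * n + i)‖ ≤ ∑ i ∈ range b, (1 : ℝ) := by
    refine (norm_sum_le _ _).trans ?_
    apply Finset.sum_le_sum
    intro i _
    rw [norm_smul, norm_e, mul_one]
    exact (tau_le _ _).trans (by norm_num)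
  simp at h
  linarith

/-- coordinate functional of `ℓ¹` -/
def coord (𝕜 : Type) [RCLike 𝕜] (n : ℕ) : ell1 𝕜 →ₗ[𝕜] 𝕜 where
  toFun f := f n
  map_add' f g := by simp
  map_smul' c f := by simp

lemma coord_apply (n : ℕ) (f : ell1 𝕜) : coord 𝕜 n f = f n := rfl

/-- the biorthogonal functionals, for `b ≥ 2` -/
def ys (𝕜 : Type) [RCLike 𝕜] (b : ℕ) : ℕ → (ell1 𝕜 →ₗ[𝕜] 𝕜)
  | 0 => coord 𝕜 0
  | (n + 1) => coord 𝕜 (n + 1) +
      (if (n + 1) / b < n + 1 then tau 𝕜 b (n + 1) • ys 𝕜 b ((n + 1) / b) else 0)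

lemma ys_eq {b : ℕ} (hb : 2 ≤ b) (n : ℕ) (f : ell1 𝕜) :
    ys 𝕜 b n f = f n + tau 𝕜 b n * ys 𝕜 b (n / b) f := by
  rcases n with _ | n
  · rw [tau_zero, zero_mul, add_zero, ys]; rfl
  · rw [ys, if_pos (Nat.div_lt_self (by omega) (by omega))]; rfl

lemma div_lt {b n : ℕ} (hb : 2 ≤ b) (hn : 0 < n) : n / b < n := Nat.div_lt_self hn (by omega)

lemma ys_bound {b : ℕ} (hb : 2 ≤ b) (n : ℕ) (f : ell1 𝕜) : ‖ys 𝕜 b n f‖ ≤ 2 * ‖f‖ := by
  induction n using Nat.strong_induction_on with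
  | _ n ih =>
    have h1 : ‖f n‖ ≤ ‖f‖ := lp.norm_apply_le_norm one_ne_zero f n
    rw [ys_eq hb]
    rcases Nat.eq_zero_or_pos n with h0 | h0
    · rw [h0, tau_zero, zero_mul, add_zero]
      rw [h0] at h1
      linarith [norm_nonneg f]
    · have h2 := ih (n / b) (div_lt hb h0)
      have h4 := tau_le (𝕜 := 𝕜) b n
      have h5 : ‖f n + tau 𝕜 b n * ys 𝕜 b (n / b) f‖ ≤
          ‖f n‖ + ‖tau 𝕜 b n‖ * ‖ys 𝕜 b (n / b) f‖ := by
        refine (norm_add_le _ _).trans ?_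
        rw [norm_mul]
      have h6 : ‖tau 𝕜 b n‖ * ‖ys 𝕜 b (n / b) f‖ ≤ 1 / 2 * (2 * ‖f‖) := by
        apply mul_le_mul h4 h2 (norm_nonneg _) (by norm_num)
      linarith

lemma biorth {b : ℕ} (hb : 2 ≤ b) (m n : ℕ) : ys 𝕜 b m (x 𝕜 b n) = if m = n then 1 else 0 := by
  induction m using Nat.strong_induction_on with
  | _ m ih =>
    rw [ys_eq hb, x_apply (by omega)]
    rcases Nat.eq_zero_or_pos m with h0 | h0
    · rw [h0, tau_zero]; simp
    · rw [ih (m / b) (div_lt hb h0)]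
      ring

lemma hasSum_abs (f : ell1 𝕜) : HasSum (fun i => ‖f i‖) ‖f‖ := by
  have h := lp.hasSum_norm (p := 1) (by simp) f
  simpa using h

lemma sum_abs_le (f : ell1 𝕜) (s : Finset ℕ) : ∑ i ∈ s, ‖f i‖ ≤ ‖f‖ :=
  sum_le_hasSum s (fun i _ => norm_nonneg _) (hasSum_abs f)

lemma sum_div (g : ℕ → ℝ) (N K : ℕ) (hN : 0 < N) :
    ∑ n ∈ range (N * K), g (n / N) = N * ∑ k ∈ range K, g k := by
  induction K with
  | zero => simp
  | succ K ih =>
    rw [Nat.mul_succ, Finset.sum_range_add, ih, Finset.sum_range_succ, mul_add]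
    congr 1
    have h : ∀ i ∈ range N, g ((N * K + i) / N) = g K := by
      intro i hi
      rw [mem_range] at hi
      rw [Nat.mul_add_div hN, Nat.div_eq_of_lt hi, add_zero]
    rw [Finset.sum_congr rfl h]
    simp

lemma sum_anc {b : ℕ} (hb : 2 ≤ b) (f : ell1 𝕜) (A : Finset ℕ) (l : ℕ) :
    ∑ n ∈ A, ‖f (n / b ^ l)‖ ≤ (b : ℝ) ^ l * ‖f‖ := by
  have hbl : 1 ≤ b ^ l := Nat.one_le_pow _ _ (by omega)
  obtain ⟨K, hK⟩ : ∃ K, A ⊆ range (b ^ l * K) := by
    refine ⟨A.sup id + 1, ?_⟩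
    intro n hn
    rw [mem_range]
    have h1 : n ≤ A.sup id := Finset.le_sup (f := id) hn
    nlinarith
  refine (Finset.sum_le_sum_of_subset_of_nonneg hK (fun _ _ _ => norm_nonneg _)).trans ?_
  have h := sum_div (fun n => ‖f n‖) (b ^ l) K (by omega)
  rw [h]
  push_cast
  exact mul_le_mul_of_nonneg_left (sum_abs_le f _) (by positivity)

/-- expansion along the ancestors -/
lemma anc_bound {b : ℕ} (hb : 2 ≤ b) (f : ell1 𝕜) (hQ : ∀ n, ‖ys 𝕜 b n f‖ ≤ 1) (m n : ℕ) :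
    ‖ys 𝕜 b n f‖ ≤ ∑ l ∈ range m, ‖f (n / b ^ l)‖ + (1 / 2) ^ m := by
  induction m generalizing n with
  | zero => simpa using hQ n
  | succ m ih =>
    rw [ys_eq hb]
    have h1 := ih (n / b)
    have h4 := tau_le (𝕜 := 𝕜) b n
    have h5 : ‖f n + tau 𝕜 b n * ys 𝕜 b (n / b) f‖ ≤
        ‖f n‖ + ‖tau 𝕜 b n‖ * ‖ys 𝕜 b (n / b) f‖ := by
      refine (norm_add_le _ _).trans ?_
      rw [norm_mul]
    rw [Finset.sum_range_succ', pow_zero, Nat.div_one]
    have h6 : ∀ l, n / b / b ^ l = n / b ^ (l + 1) := by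
      intro l
      rw [Nat.div_div_eq_div_mul, pow_succ']
    simp only [h6] at h1
    have hS : 0 ≤ ∑ l ∈ range m, ‖f (n / b ^ (l + 1))‖ :=
      Finset.sum_nonneg fun _ _ => norm_nonneg _
    have h7 : ‖tau 𝕜 b n‖ * ‖ys 𝕜 b (n / b) f‖ ≤
        1 / 2 * (∑ l ∈ range m, ‖f (n / b ^ (l + 1))‖ + (1 / 2) ^ m) := by
      apply mul_le_mul h4 h1 (norm_nonneg _) (by norm_num)
    rw [pow_succ]
    linarith

lemma near_uncond {b : ℕ} (hb : 2 ≤ b) {a : ℝ} (ha : 0 < a) (f : ell1 𝕜)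
    (hQ : ∀ n, ‖ys 𝕜 b n f‖ ≤ 1) (m : ℕ)
    (hm : (1 / 2 : ℝ) ^ m ≤ a / 2) (A : Finset ℕ) (hA : ∀ n ∈ A, a ≤ ‖ys 𝕜 b n f‖) :
    ‖∑ n ∈ A, ys 𝕜 b n f • x 𝕜 b n‖ ≤ ((1 + b) * (2 / a) * (m * (b : ℝ) ^ m)) * ‖f‖ := by
  have hb0 : (0 : ℝ) ≤ b := Nat.cast_nonneg b
  have hb1 : (1 : ℝ) ≤ b := by exact_mod_cast (by omega : 1 ≤ b)
  have h1 : ‖∑ n ∈ A, ys 𝕜 b n f • x 𝕜 b n‖ ≤ (1 + b) * A.card := by
    refine (norm_sum_le _ _).trans ?_
    have : ∀ n ∈ A, ‖ys 𝕜 b n f • x 𝕜 b n‖ ≤ 1 + b := by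
      intro n _
      rw [norm_smul]
      have := hQ n
      have := norm_x (𝕜 := 𝕜) b n
      nlinarith [norm_nonneg (ys 𝕜 b n f), norm_nonneg (x 𝕜 b n)]
    refine (Finset.sum_le_sum this).trans ?_
    rw [Finset.sum_const, nsmul_eq_mul, mul_comm]
  have h2 : (A.card : ℝ) * (a / 2) ≤ m * (b : ℝ) ^ m * ‖f‖ := by
    have h3 : ∀ n ∈ A, a / 2 ≤ ∑ l ∈ range m, ‖f (n / b ^ l)‖ := by
      intro n hn
      have := anc_bound hb f hQ m n
      have := hA n hn
      linarith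
    have h4 : ∑ n ∈ A, (a / 2) ≤ ∑ n ∈ A, ∑ l ∈ range m, ‖f (n / b ^ l)‖ := Finset.sum_le_sum h3
    rw [Finset.sum_comm] at h4
    have h5 : ∑ l ∈ range m, ∑ n ∈ A, ‖f (n / b ^ l)‖ ≤ ∑ l ∈ range m, (b : ℝ) ^ m * ‖f‖ := by
      apply Finset.sum_le_sum
      intro l hl
      rw [mem_range] at hl
      refine (sum_anc hb f A l).trans ?_
      apply mul_le_mul_of_nonneg_right _ (norm_nonneg _)
      exact pow_le_pow_right₀ hb1 hl.le
    simp at h4 h5
    linarith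
  have h6 : (A.card : ℝ) ≤ (2 / a) * (m * (b : ℝ) ^ m * ‖f‖) := by
    rw [div_mul_eq_mul_div, le_div_iff₀ ha]
    linarith
  calc ‖∑ n ∈ A, ys 𝕜 b n f • x 𝕜 b n‖ ≤ (1 + b) * A.card := h1
    _ ≤ (1 + b) * ((2 / a) * (m * (b : ℝ) ^ m * ‖f‖)) :=
        mul_le_mul_of_nonneg_left h6 (by positivity)
    _ = _ := by ring

/-! ### density -/

lemma log_child {b n i : ℕ} (hb : 2 ≤ b) (hn : 1 ≤ n) (hi : i < b) :
    Nat.log b (b * n + i) = Nat.log b n + 1 := by
  have h1 : (b * n + i) / b = n := by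
    rw [Nat.mul_add_div (by omega), Nat.div_eq_of_lt hi, add_zero]
  have h2 := Nat.log_div_base b (b * n + i)
  rw [h1] at h2
  have h3 : 1 ≤ Nat.log b (b * n + i) := by
    apply Nat.log_pos (by omega)
    nlinarith
  omega

lemma e_mem_span {b : ℕ} (hb : 2 ≤ b) (d : ℕ) : ∀ n : ℕ, 1 ≤ n →
    IsSquare (Nat.log b n + d + 1) → e 𝕜 n ∈ Submodule.span 𝕜 (Set.range (x 𝕜 b)) := by
  induction d with
  | zero =>
    intro n hn hsq
    have h : x 𝕜 b n = e 𝕜 n := by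
      unfold x
      rw [sub_eq_self]
      apply Finset.sum_eq_zero
      intro i hi
      rw [mem_range] at hi
      have : tau 𝕜 b (b * n + i) = 0 := by
        unfold tau
        rw [log_child hb hn hi, if_pos (by simpa using hsq)]
      rw [this, zero_smul]
    rw [← h]
    exact Submodule.subset_span ⟨n, rfl⟩
  | succ d ih =>
    intro n hn hsq
    have h : e 𝕜 n = x 𝕜 b n + ∑ i ∈ range b, tau 𝕜 b (b * n + i) • e 𝕜 (b * n + i) := by
      unfold x; abel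
    rw [h]
    apply Submodule.add_mem _ (Submodule.subset_span (Set.mem_range_self n))
    apply Submodule.sum_mem
    intro i hi
    rw [mem_range] at hi
    apply Submodule.smul_mem
    apply ih _ (by nlinarith)
    rw [log_child hb hn hi]
    rwa [show Nat.log b n + 1 + d + 1 = Nat.log b n + (d + 1) + 1 by ring]

lemma e_mem {b : ℕ} (hb : 2 ≤ b) (n : ℕ) : e 𝕜 n ∈ Submodule.span 𝕜 (Set.range (x 𝕜 b)) := by
  rcases Nat.eq_zero_or_pos n with h0 | h0
  · have h : x 𝕜 b 0 = e 𝕜 0 := by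
      unfold x
      rw [sub_eq_self]
      apply Finset.sum_eq_zero
      intro i hi
      rw [mem_range] at hi
      have : tau 𝕜 b (b * 0 + i) = 0 := by
        unfold tau
        have h4 : Nat.log b (b * 0 + i) = 0 := by
          rw [Nat.log_eq_zero_iff]; left; omega
        rw [h4, if_pos]
        exact ⟨0, rfl⟩
      rw [this, zero_smul]
    rw [h0, ← h]
    exact Submodule.subset_span ⟨0, rfl⟩
  · apply e_mem_span hb ((Nat.log b n + 1) * (Nat.log b n + 1) - Nat.log b n - 1) n h0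
    refine ⟨Nat.log b n + 1, ?_⟩
    have : Nat.log b n + 1 ≤ (Nat.log b n + 1) * (Nat.log b n + 1) := Nat.le_mul_self _
    omega

lemma dense_span {b : ℕ} (hb : 2 ≤ b) :
    Dense (Submodule.span 𝕜 (Set.range (x 𝕜 b)) : Set (ell1 𝕜)) := by
  intro f
  rw [Metric.mem_closure_iff]
  intro ε hε
  have h := lp.hasSum_single (E := fun _ : ℕ => 𝕜) (p := 1) (by simp) f
  rw [HasSum, SummationFilter.unconditional_filter] at h
  obtain ⟨s, hs⟩ := (Metric.tendsto_atTop.mp h) ε hε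
  refine ⟨∑ i ∈ s, lp.single 1 i (f i), ?_, ?_⟩
  · apply Submodule.sum_mem
    intro i _
    have : lp.single 1 i (f i) = (f i) • e 𝕜 i := by
      unfold e
      rw [← lp.single_smul, smul_eq_mul, mul_one]
    rw [this]
    exact Submodule.smul_mem _ _ (e_mem hb i)
  · have := hs s le_rfl
    rwa [dist_comm] at this

/-! ### the levels below a node at a square level -/

/-- level `i` below `b^(J²)` -/
def Blk (b J i : ℕ) : Finset ℕ := Finset.Ico (b ^ (J * J) * b ^ i) ((b ^ (J * J) + 1) * b ^ i)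

lemma mem_Blk {b J i n : ℕ} (hb : 2 ≤ b) : n ∈ Blk b J i ↔ n / b ^ i = b ^ (J * J) := by
  unfold Blk
  rw [mem_Ico]
  have hpos : 0 < b ^ i := Nat.pow_pos (by omega)
  constructor
  · rintro ⟨h1, h2⟩
    exact Nat.div_eq_of_lt_le h1 h2
  · intro h
    constructor
    · have := Nat.div_mul_le_self n (b ^ i)
      rwa [h] at this
    · exact Nat.lt_mul_of_div_lt (show n / b ^ i < b ^ (J * J) + 1 by omega) hpos

lemma log_Blk {b J i n : ℕ} (hb : 2 ≤ b) (h : n ∈ Blk b J i) : Nat.log b n = J * J + i := by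
  unfold Blk at h
  rw [mem_Ico] at h
  apply Nat.log_eq_of_pow_le_of_lt_pow
  · rw [pow_add]; exact h.1
  · refine h.2.trans_le ?_
    rw [pow_succ, pow_add]
    have h1 : 1 ≤ b ^ (J * J) := Nat.one_le_pow _ _ (by omega)
    have h2 : 1 ≤ b ^ i := Nat.one_le_pow _ _ (by omega)
    have h3 : b ^ (J * J) + 1 ≤ b ^ (J * J) * b := by nlinarith
    calc (b ^ (J * J) + 1) * b ^ i ≤ (b ^ (J * J) * b) * b ^ i := Nat.mul_le_mul_right _ h3
      _ = b ^ (J * J) * b ^ i * b := by ring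

lemma card_Blk (b J i : ℕ) : (Blk b J i).card = b ^ i := by
  unfold Blk
  rw [Nat.card_Ico]
  rw [add_mul, one_mul, Nat.add_sub_cancel_left]

lemma tau_Blk_zero {b J n : ℕ} (hb : 2 ≤ b) (h : n ∈ Blk b J 0) : tau 𝕜 b n = 0 := by
  unfold tau
  rw [log_Blk hb h, if_pos ⟨J, by ring⟩]

lemma tau_Blk_last {b J n : ℕ} (hb : 2 ≤ b) (h : n ∈ Blk b J (2 * J + 1)) : tau 𝕜 b n = 0 := by
  unfold tau
  rw [log_Blk hb h, if_pos ⟨J + 1, by ring⟩]

lemma tau_Blk {b J i n : ℕ} (hb : 2 ≤ b) (h : n ∈ Blk b J i) (h1 : 1 ≤ i) (h2 : i ≤ 2 * J) :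
    tau 𝕜 b n = 1 / 2 := by
  unfold tau
  rw [log_Blk hb h, if_neg]
  rintro ⟨k, hk⟩
  rcases Nat.lt_or_ge J k with h3 | h3
  · have : (J + 1) * (J + 1) ≤ k * k := Nat.mul_self_le_mul_self h3
    nlinarith
  · have : k * k ≤ J * J := Nat.mul_self_le_mul_self h3
    omega

lemma Blk_parent {b J i n : ℕ} (hb : 2 ≤ b) : n ∈ Blk b J (i + 1) ↔ n / b ∈ Blk b J i := by
  rw [mem_Blk hb, mem_Blk hb, pow_succ', Nat.div_div_eq_div_mul]

lemma Blk_unique {b J i j n : ℕ} (hb : 2 ≤ b) (hi : n ∈ Blk b J i) (hj : n ∈ Blk b J j) :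
    i = j := by
  have h1 := log_Blk hb hi
  have h2 := log_Blk hb hj
  omega

/-- values of the coordinate functionals on `e_r` -/
lemma ys_e {b : ℕ} (hb : 2 ≤ b) (J n : ℕ) :
    (∀ i ≤ 2 * J, n ∈ Blk b J i → ys 𝕜 b n (e 𝕜 (b ^ (J * J))) = (1 / 2) ^ i) ∧
    ((∀ i ≤ 2 * J, n ∉ Blk b J i) → ys 𝕜 b n (e 𝕜 (b ^ (J * J))) = 0) := by
  induction n using Nat.strong_induction_on with
  | _ n ih =>
    constructor
    · intro i hi hn
      rw [ys_eq hb, e_apply]
      rcases i with _ | i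
      · rw [tau_Blk_zero hb hn, zero_mul, add_zero, if_pos, pow_zero]
        have := (mem_Blk hb).mp hn
        simpa using this
      · have hne : n ≠ b ^ (J * J) := by
          intro h
          have h1 := log_Blk hb hn
          rw [h, Nat.log_pow (by omega)] at h1
          omega
        have hn0 : 0 < n := by
          rcases Nat.eq_zero_or_pos n with h | h
          · exfalso
            rw [mem_Blk hb, h, Nat.zero_div] at hn
            have : 0 < b ^ (J * J) := Nat.pow_pos (by omega)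
            omega
          · exact h
        rw [if_neg hne, zero_add, tau_Blk hb hn (by omega) hi,
          (ih (n / b) (div_lt hb hn0)).1 i (by omega) ((Blk_parent hb).mp hn), pow_succ]
        ring
    · intro hn
      have hne : n ≠ b ^ (J * J) := by
        intro h
        apply hn 0 (by omega)
        rw [mem_Blk hb, h, pow_zero, Nat.div_one]
      rw [ys_eq hb, e_apply, if_neg hne, zero_add]
      rcases Nat.eq_zero_or_pos n with h0 | h0
      · rw [h0, tau_zero, zero_mul]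
      · by_cases hp : ∃ i ≤ 2 * J, n / b ∈ Blk b J i
        · obtain ⟨i, hi, hmem⟩ := hp
          have h1 : n ∈ Blk b J (i + 1) := (Blk_parent hb).mpr hmem
          have h2 : i = 2 * J := by
            by_contra h3
            exact hn (i + 1) (by omega) h1
          subst h2
          rw [tau_Blk_last hb h1, zero_mul]
        · push Not at hp
          rw [(ih (n / b) (div_lt hb h0)).2 hp, mul_zero]

/-- the sum of the vectors of level `j` -/
def P (𝕜 : Type) [RCLike 𝕜] (b J j : ℕ) : ell1 𝕜 := ∑ n ∈ Blk b J j, x 𝕜 b n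

/-- the remainder of `e_r` after the removal of `j` levels, normalised -/
def R (𝕜 : Type) [RCLike 𝕜] (b J : ℕ) : ℕ → ell1 𝕜
  | 0 => e 𝕜 (b ^ (J * J))
  | (j + 1) => (2 : 𝕜) • (R 𝕜 b J j - P 𝕜 b J j)

lemma ys_P {b : ℕ} (hb : 2 ≤ b) (J j n : ℕ) :
    ys 𝕜 b n (P 𝕜 b J j) = if n ∈ Blk b J j then 1 else 0 := by
  unfold P
  rw [map_sum]
  simp only [biorth hb]
  rw [Finset.sum_ite_eq]

lemma ys_R {b : ℕ} (hb : 2 ≤ b) (J j : ℕ) (hj : j ≤ 2 * J + 1) : ∀ n : ℕ,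
    (∀ i, j ≤ i → i ≤ 2 * J → n ∈ Blk b J i → ys 𝕜 b n (R 𝕜 b J j) = (1 / 2) ^ (i - j)) ∧
    ((∀ i, j ≤ i → i ≤ 2 * J → n ∉ Blk b J i) → ys 𝕜 b n (R 𝕜 b J j) = 0) := by
  induction j with
  | zero =>
    intro n
    refine ⟨fun i _ hi hn => ?_, fun hn => ?_⟩
    · rw [R, (ys_e hb J n).1 i hi hn, Nat.sub_zero]
    · rw [R, (ys_e hb J n).2 (fun i hi => hn i (Nat.zero_le _) hi)]
  | succ j ih =>
    intro n
    have ih' := ih (by omega) n
    have hR : ys 𝕜 b n (R 𝕜 b J (j + 1)) =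
        2 * (ys 𝕜 b n (R 𝕜 b J j) - if n ∈ Blk b J j then 1 else 0) := by
      rw [R, map_smul, map_sub, ys_P hb, smul_eq_mul]
    refine ⟨fun i hji hi hn => ?_, fun hn => ?_⟩
    · have h1 : n ∉ Blk b J j := by
        intro h
        have := Blk_unique hb hn h
        omega
      rw [hR, ih'.1 i (by omega) hi hn, if_neg h1, sub_zero,
        show i - j = (i - (j + 1)) + 1 by omega, pow_succ]
      ring
    · by_cases h1 : n ∈ Blk b J j
      · rw [hR, ih'.1 j le_rfl (by omega) h1, if_pos h1]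
        simp
      · rw [hR, if_neg h1, ih'.2, sub_zero, mul_zero]
        intro i hji hi
        rcases Nat.eq_or_lt_of_le hji with h2 | h2
        · rw [← h2]; exact h1
        · exact hn i h2 hi

lemma norm_P {b : ℕ} (hb : 2 ≤ b) (J j : ℕ) : (b : ℝ) ^ j ≤ ‖P 𝕜 b J j‖ := by
  refine le_trans ?_ (sum_abs_le _ (Blk b J j))
  have h : ∀ m ∈ Blk b J j, ‖(P 𝕜 b J j : ell1 𝕜) m‖ = 1 := by
    intro m hm
    unfold P
    rw [lp.coeFn_sum, Finset.sum_apply]
    simp only [x_apply (𝕜 := 𝕜) (show 0 < b by omega)]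
    rw [Finset.sum_sub_distrib]
    have h1 : ∑ n ∈ Blk b J j, (if m = n then (1 : 𝕜) else 0) = 1 := by
      rw [Finset.sum_ite_eq, if_pos hm]
    have h2 : ∑ n ∈ Blk b J j, tau 𝕜 b m * (if m / b = n then (1 : 𝕜) else 0) = 0 := by
      rw [← Finset.mul_sum, Finset.sum_ite_eq, if_neg, mul_zero]
      intro h3
      have h4 := (Blk_parent hb).mpr h3
      have := Blk_unique hb hm h4
      omega
    rw [h1, h2]
    simp
  rw [Finset.sum_congr rfl h]
  rw [Finset.sum_const, card_Blk]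
  simp

/-- the coordinate functionals as continuous functionals -/
def xs (𝕜 : Type) [RCLike 𝕜] {b : ℕ} (hb : 2 ≤ b) (n : ℕ) : ell1 𝕜 →L[𝕜] 𝕜 :=
  (ys 𝕜 b n).mkContinuous 2 (ys_bound hb n)

lemma xs_apply {b : ℕ} (hb : 2 ≤ b) (n : ℕ) (f : ell1 𝕜) : xs 𝕜 hb n f = ys 𝕜 b n f := rfl

lemma isBasis {b : ℕ} (hb : 2 ≤ b) : IsBasis (x 𝕜 b) (xs 𝕜 hb) where
  bounded := ⟨1 + b, norm_x b⟩
  dual_bounded := ⟨2, fun _ => LinearMap.mkContinuous_norm_le _ (by norm_num) _⟩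
  biorthogonal := fun m n => by rw [xs_apply]; exact biorth hb m n
  dense := dense_span hb

lemma isNearlyUnconditional {b : ℕ} (hb : 2 ≤ b) :
    IsNearlyUnconditional (x 𝕜 b) (xs 𝕜 hb) := by
  intro a ha _
  obtain ⟨m, hm⟩ := exists_pow_lt_of_lt_one (show (0 : ℝ) < a / 2 by positivity)
    (show (1 / 2 : ℝ) < 1 by norm_num)
  exact ⟨_, fun f hQ A hA => near_uncond hb ha f hQ m hm.le A hA⟩

lemma step {b : ℕ} (hb : 2 ≤ b) {N : ell1 𝕜 → ℝ} {C : ℝ}
    (hG : IsQGLC N C (x 𝕜 b) (xs 𝕜 hb)) (J j : ℕ) (hj : j ≤ 2 * J) :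
    N (P 𝕜 b J j) ≤ C * N (R 𝕜 b J j) := by
  have h0 : ∀ n, ys 𝕜 b n (R 𝕜 b J j - P 𝕜 b J j) =
      ys 𝕜 b n (R 𝕜 b J j) - if n ∈ Blk b J j then 1 else 0 := by
    intro n
    rw [map_sub, ys_P hb]
  have h := hG (Blk b J j) (fun _ => 1) (fun _ _ => norm_one) (R 𝕜 b J j - P 𝕜 b J j) (by
    intro n
    rw [xs_apply, h0]
    have h1 := ys_R (𝕜 := 𝕜) hb J j (by omega) n
    by_cases hn : n ∈ Blk b J j
    · rw [if_pos hn, h1.1 j le_rfl hj hn]
      simp
    · rw [if_neg hn, sub_zero]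
      by_cases hp : ∃ i, j ≤ i ∧ i ≤ 2 * J ∧ n ∈ Blk b J i
      · obtain ⟨i, hji, hi, hmem⟩ := hp
        rw [h1.1 i hji hi hmem, norm_pow, norm_half]
        exact pow_le_one₀ (by norm_num) (by norm_num)
      · push Not at hp
        rw [h1.2 hp, norm_zero]
        exact zero_le_one) (by
    intro n hn
    rw [xs_apply, h0, if_pos hn, (ys_R (𝕜 := 𝕜) hb J j (by omega) n).1 j le_rfl hj hn]
    simp)
  simp only [one_smul] at h
  change N (P 𝕜 b J j) ≤ C * N (P 𝕜 b J j + (R 𝕜 b J j - P 𝕜 b J j)) at h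
  rwa [add_sub_cancel] at h

lemma step_R {b : ℕ} (hb : 2 ≤ b) {N : ell1 𝕜 → ℝ} {C : ℝ} (hC : 0 ≤ C)
    (hN : IsEquivalentNorm 𝕜 N)
    (hG : IsQGLC N C (x 𝕜 b) (xs 𝕜 hb)) (J j : ℕ) (hj : j ≤ 2 * J + 1) :
    N (R 𝕜 b J j) ≤ (2 * (1 + C)) ^ j * N (e 𝕜 (b ^ (J * J))) := by
  induction j with
  | zero => rw [R, pow_zero, one_mul]
  | succ j ih =>
    have h1 := ih (by omega)
    have h2 := step hb hG J j (by omega)
    have h3 : N (R 𝕜 b J j - P 𝕜 b J j) ≤ N (R 𝕜 b J j) + N (P 𝕜 b J j) := by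
      have h4 := hN.add_le (R 𝕜 b J j) ((-1 : 𝕜) • P 𝕜 b J j)
      rw [hN.smul, norm_neg, norm_one, one_mul, neg_one_smul, ← sub_eq_add_neg] at h4
      exact h4
    rw [R, hN.smul]
    have h5 : ‖(2 : 𝕜)‖ = 2 := by simp
    rw [h5, pow_succ]
    have h6 : 2 * N (R 𝕜 b J j - P 𝕜 b J j) ≤ (2 * (1 + C)) * N (R 𝕜 b J j) := by linarith
    refine h6.trans ?_
    calc (2 * (1 + C)) * N (R 𝕜 b J j)
        ≤ (2 * (1 + C)) * ((2 * (1 + C)) ^ j * N (e 𝕜 (b ^ (J * J)))) :=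
          mul_le_mul_of_nonneg_left h1 (by positivity)
      _ = _ := by ring

lemma IsQGLC.mono {N : ell1 𝕜 → ℝ} (hN : IsEquivalentNorm 𝕜 N) {C D : ℝ} (h : C ≤ D)
    {u : ℕ → ell1 𝕜} {v : ℕ → (ell1 𝕜 →L[𝕜] 𝕜)} (hG : IsQGLC N C u v) : IsQGLC N D u v := by
  intro A ε hε f hf hA
  refine (hG A ε hε f hf hA).trans (mul_le_mul_of_nonneg_right h ?_)
  obtain ⟨α, β, hα, hab⟩ := hN.equiv
  exact (mul_nonneg hα.le (norm_nonneg _)).trans (hab _).1

/-- **No uniform renorming.**  For every real or complex field `𝕜` and every `C` the Banach space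
`ℓ¹` over `𝕜` has a nearly unconditional basis which is not `C`-QGLC with respect to any equivalent
norm. -/
theorem result (𝕜 : Type) [RCLike 𝕜] (C : ℝ) :
    ∃ (x : ℕ → ell1 𝕜) (xs : ℕ → (ell1 𝕜 →L[𝕜] 𝕜)),
      IsBasis x xs ∧ IsNearlyUnconditional x xs ∧
        ∀ N : ell1 𝕜 → ℝ, IsEquivalentNorm 𝕜 N → ¬ IsQGLC N C x xs := by
  obtain ⟨b0, hb0⟩ := exists_nat_gt (2 * (1 + |C|))
  set b : ℕ := b0 + 2 with hbdef
  have hb : 2 ≤ b := by omega
  refine ⟨x 𝕜 b, xs 𝕜 hb, isBasis hb, isNearlyUnconditional hb, ?_⟩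
  intro N hN hG0
  have hG := IsQGLC.mono hN (le_abs_self C) hG0
  obtain ⟨α, β, hα, hab⟩ := hN.equiv
  set K : ℝ := 2 * (1 + |C|) with hK
  have hK0 : 0 < K := by positivity
  have hbK : K < b := by
    rw [hbdef]; push_cast; linarith
  have key : ∀ j : ℕ, α * (b : ℝ) ^ j ≤ |C| * (K ^ j * β) := by
    intro j
    have h1 := step hb hG j j (by omega)
    have h2 := step_R hb (abs_nonneg C) hN hG j j (by omega)
    have h3 := (hab (P 𝕜 b j j)).1
    have h4 := (hab (e 𝕜 (b ^ (j * j)))).2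
    rw [norm_e, mul_one] at h4
    have h5 := norm_P (𝕜 := 𝕜) hb j j
    have h6 : N (R 𝕜 b j j) ≤ K ^ j * β :=
      h2.trans (mul_le_mul_of_nonneg_left h4 (by positivity))
    calc α * (b : ℝ) ^ j ≤ α * ‖P 𝕜 b j j‖ := mul_le_mul_of_nonneg_left h5 hα.le
      _ ≤ N (P 𝕜 b j j) := h3
      _ ≤ |C| * N (R 𝕜 b j j) := h1
      _ ≤ |C| * (K ^ j * β) := mul_le_mul_of_nonneg_left h6 (abs_nonneg C)
  obtain ⟨j, hj⟩ := pow_unbounded_of_one_lt (|C| * β / α) (show (1 : ℝ) < b / K by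
    rw [lt_div_iff₀ hK0, one_mul]; exact hbK)
  have h1 := key j
  rw [div_pow, lt_div_iff₀ (pow_pos hK0 j), div_mul_eq_mul_div, div_lt_iff₀ hα] at hj
  linarith

end

end Pool.Agent.Results.MP_142f15_an.NoUniformRenorming
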